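import Mathlib

namespace Pool.Agent.H.MP_7216ee_lc

open scoped ENNReal Classical

noncomputable def L (t : ℝ≥0∞) : ℝ≥0∞ := ENNReal.ofReal (-Real.log t.toReal)

theorem toReal_facts {a : ℝ≥0∞} (h0 : a ≠ 0) (h1 : a ≤ 1) :
    0 < a.toReal ∧ 0 ≤ -Real.log a.toReal ∧ a ≠ ⊤ := by
  have ht : a ≠ ⊤ := ne_top_of_le_ne_top ENNReal.one_ne_top h1
  refine ⟨ENNReal.toReal_pos h0 ht, neg_nonneg.2 (Real.log_nonpos ENNReal.toReal_nonneg ?_), ht⟩
  simpa using ENNReal.toReal_mono ENNReal.one_ne_top h1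

theorem L_mono {a b : ℝ≥0∞} (h0 : a ≠ 0) (h : a ≤ b) (h1 : b ≤ 1) : L b ≤ L a := by
  obtain ⟨ha, -, -⟩ := toReal_facts h0 (h.trans h1)
  exact ENNReal.ofReal_le_ofReal (neg_le_neg (Real.log_le_log ha
    (ENNReal.toReal_mono (ne_top_of_le_ne_top ENNReal.one_ne_top h1) h)))

theorem L_gibbs {a b c d : ℝ≥0∞} (a0 : a ≠ 0) (a1 : a ≤ 1) (b0 : b ≠ 0) (b1 : b ≤ 1) (c0 : c ≠ 0)
    (c1 : c ≤ 1) (d0 : d ≠ 0) (d1 : d ≤ 1) : L c + L d + 1 ≤ L a + L b + a * b * (c⁻¹ * d⁻¹) := by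
  obtain ⟨a2, a3, a4⟩ := toReal_facts a0 a1
  obtain ⟨b2, b3, b4⟩ := toReal_facts b0 b1
  obtain ⟨c2, c3, c4⟩ := toReal_facts c0 c1
  obtain ⟨d2, d3, d4⟩ := toReal_facts d0 d1
  have e : a * b * (c⁻¹ * d⁻¹) =
      ENNReal.ofReal (a.toReal * b.toReal * (c.toReal⁻¹ * d.toReal⁻¹)) := by
    rw [← ENNReal.toReal_inv, ← ENNReal.toReal_inv, ← ENNReal.toReal_mul, ← ENNReal.toReal_mul,
      ← ENNReal.toReal_mul, ENNReal.ofReal_toReal]
    finiteness
  have hp : 0 < a.toReal * b.toReal * (c.toReal⁻¹ * d.toReal⁻¹) := by positivity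
  have := Real.log_le_sub_one_of_pos hp
  rw [Real.log_mul (by positivity) (by positivity), Real.log_mul a2.ne' b2.ne',
    Real.log_mul (by positivity) (by positivity), Real.log_inv, Real.log_inv] at this
  rw [e, L, L, L, L, ← ENNReal.ofReal_one, ← ENNReal.ofReal_add c3 d3, ← ENNReal.ofReal_add a3 b3,
    ← ENNReal.ofReal_add (add_nonneg c3 d3) zero_le_one, ← ENNReal.ofReal_add (add_nonneg a3 b3) hp.le]
  exact ENNReal.ofReal_le_ofReal (by linarith)

theorem L_prod {a b c d : ℝ≥0∞} (a0 : a ≠ 0) (a1 : a ≤ 1) (b0 : b ≠ 0) (b1 : b ≤ 1) (c0 : c ≠ 0)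
    (c1 : c ≤ 1) (d0 : d ≠ 0) (d1 : d ≤ 1) (h : c * d ≤ a * b) : L a + L b ≤ L c + L d := by
  obtain ⟨a2, a3, a4⟩ := toReal_facts a0 a1
  obtain ⟨b2, b3, b4⟩ := toReal_facts b0 b1
  obtain ⟨c2, c3, c4⟩ := toReal_facts c0 c1
  obtain ⟨d2, d3, d4⟩ := toReal_facts d0 d1
  have h1 := ENNReal.toReal_mono (by finiteness) h
  rw [ENNReal.toReal_mul, ENNReal.toReal_mul] at h1
  have := Real.log_le_log (by positivity) h1
  rw [Real.log_mul a2.ne' b2.ne', Real.log_mul c2.ne' d2.ne'] at this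
  rw [L, L, L, L, ← ENNReal.ofReal_add c3 d3, ← ENNReal.ofReal_add a3 b3]
  exact ENNReal.ofReal_le_ofReal (by linarith)

variable {Ω α β γ δ : Type}

noncomputable def F (P : PMF Ω) (X : Ω → α) (a : α) : ℝ≥0∞ := ∑' ω, if a = X ω then P ω else 0

noncomputable def E (P : PMF Ω) (X : Ω → α) : ℝ≥0∞ := ∑' ω, P ω * L (F P X (X ω))

theorem F_le (P : PMF Ω) (X : Ω → α) (a) : F P X a ≤ 1 := by
  rw [← P.tsum_coe]
  exact ENNReal.tsum_le_tsum fun ω => by split_ifs <;> simp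

theorem F_ne (P : PMF Ω) (X : Ω → α) {ω} (h : P ω ≠ 0) : F P X (X ω) ≠ 0 := fun e => by
  simpa [h] using ENNReal.tsum_eq_zero.1 e ω

theorem F_top (P : PMF Ω) (X : Ω → α) (a) : F P X a ≠ ⊤ :=
  ne_top_of_le_ne_top ENNReal.one_ne_top (F_le P X a)

theorem ent_eq (P : PMF Ω) (X : Ω → α) :
    ∑' a, ENNReal.ofReal (Real.negMulLog (P.map X a).toReal) = E P X := by
  have h : ∀ a, P.map X a = F P X a := fun a => by
    rw [PMF.map_apply, F]
  have h2 : ∀ a, ENNReal.ofReal (Real.negMulLog (F P X a).toReal) = F P X a * L (F P X a) := by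
    intro a
    rw [L, Real.negMulLog, neg_mul, ← mul_neg, ENNReal.ofReal_mul ENNReal.toReal_nonneg,
      ENNReal.ofReal_toReal (F_top P X a)]
  simp only [h, h2]
  calc _ = ∑' a, ∑' ω, if a = X ω then P ω * L (F P X a) else 0 := by
        refine tsum_congr fun a => ?_
        nth_rw 1 [F]
        rw [← ENNReal.tsum_mul_right]
        simp
    _ = _ := by
      rw [ENNReal.tsum_comm]
      exact tsum_congr fun ω => tsum_ite_eq _ _

theorem tsum_le_supp (P : PMF Ω) {f g : Ω → ℝ≥0∞} (h : ∀ ω, P ω ≠ 0 → f ω ≤ g ω) :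
    ∑' ω, P ω * f ω ≤ ∑' ω, P ω * g ω := by
  refine ENNReal.tsum_le_tsum fun ω => ?_
  by_cases c : P ω = 0
  · simp [c]
  · exact mul_le_mul_right (h ω c) _

theorem E_le (P : PMF Ω) {X : Ω → α} {Y : Ω → β}
    (h : ∀ ω ω', P ω ≠ 0 → P ω' ≠ 0 → X ω = X ω' → Y ω = Y ω') : E P Y ≤ E P X := by
  refine tsum_le_supp P fun ω c => L_mono (F_ne P X c) ?_ (F_le _ _ _)
  refine ENNReal.tsum_le_tsum fun ω' => ?_
  by_cases c' : P ω' = 0
  · simp [c']
  split_ifs with h1 h2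
  exacts [le_rfl, absurd (h _ _ c c' h1) h2, zero_le, le_rfl]

theorem E_sub (P : PMF Ω) (X : Ω → α) (Y : Ω → β) (Z : Ω → γ)
    (h1 : ∀ ω ω', X ω = X ω' → Z ω = Z ω') (h2 : ∀ ω ω', Y ω = Y ω' → Z ω = Z ω') :
    E P (fun ω => (X ω, Y ω)) + E P Z ≤ E P X + E P Y := by
  set W := fun ω => (X ω, Y ω) with hW
  have key : ∑' ω, P ω * (F P X (X ω) * F P Y (Y ω) * ((F P W (W ω))⁻¹ * (F P Z (Z ω))⁻¹)) ≤ 1 := by
    calc _ = ∑' ω, ∑' a, ∑' b, (if (X a, Y b) = W ω then P ω else 0) * (F P W (X a, Y b))⁻¹ *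
          (P a * ((if Z a = Z b then P b else 0) * (F P Z (Z a))⁻¹)) := by
          refine tsum_congr fun ω => ?_
          rw [F, F, ← ENNReal.tsum_mul_right, ← ENNReal.tsum_mul_right, ← ENNReal.tsum_mul_left]
          refine tsum_congr fun a => ?_
          rw [← ENNReal.tsum_mul_left, ← ENNReal.tsum_mul_right, ← ENNReal.tsum_mul_left]
          refine tsum_congr fun b => ?_
          by_cases c1 : X ω = X a
          · by_cases c2 : Y ω = Y b
            · have e1 := h1 _ _ c1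
              have e2 := h2 _ _ c2
              simp only [hW, ← c1, ← c2, ← e1, ← e2, if_true]
              ring
            · simp [hW, c2, Ne.symm c2]
          · simp [hW, c1, Ne.symm c1]
      _ ≤ ∑' a, ∑' b, P a * ((if Z a = Z b then P b else 0) * (F P Z (Z a))⁻¹) := by
          rw [ENNReal.tsum_comm]
          refine ENNReal.tsum_le_tsum fun a => ?_
          rw [ENNReal.tsum_comm]
          refine ENNReal.tsum_le_tsum fun b => ?_
          rw [ENNReal.tsum_mul_right, ENNReal.tsum_mul_right]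
          refine mul_le_of_le_one_left' (le_trans (le_of_eq ?_)
            (ENNReal.mul_inv_le_one (F P W (X a, Y b))))
          refine congrArg (· * _) (tsum_congr fun ω => ?_)
          split_ifs <;> rfl
      _ ≤ 1 := by
          rw [← P.tsum_coe]
          refine ENNReal.tsum_le_tsum fun a => ?_
          rw [ENNReal.tsum_mul_left, ENNReal.tsum_mul_right]
          exact mul_le_of_le_one_right' (ENNReal.mul_inv_le_one _)
  have h3 := tsum_le_supp P fun ω c => L_gibbs (F_ne P X c) (F_le _ _ _) (F_ne P Y c) (F_le _ _ _)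
    (F_ne P W c) (F_le _ _ _) (F_ne P Z c) (F_le _ _ _)
  simp only [mul_add, ENNReal.tsum_add, mul_one, P.tsum_coe] at h3
  exact (ENNReal.add_le_add_iff_right ENNReal.one_ne_top).1 (h3.trans (add_le_add le_rfl key))

theorem row (P : PMF Ω) (W : Ω → γ) (a : Ω) :
    ∑' b, P a * ((if W a = W b then P b else 0) * (F P W (W a))⁻¹) = P a := by
  by_cases c : P a = 0
  · simp [c]
  rw [ENNReal.tsum_mul_left, ENNReal.tsum_mul_right]
  exact (congrArg _ (ENNReal.mul_inv_cancel (F_ne P W c) (F_top _ _ _))).trans (mul_one _)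

/-- two conditionally independent samples with the same value of `W` -/
noncomputable def copy (P : PMF Ω) (W : Ω → γ) : PMF (Ω × Ω) :=
  ⟨fun q => P q.1 * ((if W q.1 = W q.2 then P q.2 else 0) * (F P W (W q.1))⁻¹),
    ENNReal.summable.hasSum_iff.2 (by rw [ENNReal.tsum_prod']; simp only [row, P.tsum_coe])⟩

theorem copy_apply (P : PMF Ω) (W : Ω → γ) (q) :
    copy P W q = P q.1 * ((if W q.1 = W q.2 then P q.2 else 0) * (F P W (W q.1))⁻¹) := rfl

theorem copy_supp {P : PMF Ω} {W : Ω → γ} {q} (h : copy P W q ≠ 0) :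
    P q.1 ≠ 0 ∧ P q.2 ≠ 0 ∧ W q.1 = W q.2 := by
  rw [copy_apply] at h
  split_ifs at h with c
  · exact ⟨left_ne_zero_of_mul h, left_ne_zero_of_mul (right_ne_zero_of_mul h), c⟩
  · simp at h

theorem copy_fst (P : PMF Ω) (W : Ω → γ) (g : Ω → ℝ≥0∞) :
    ∑' q, copy P W q * g q.1 = ∑' a, P a * g a := by
  rw [ENNReal.tsum_prod']
  simp only [copy_apply, ENNReal.tsum_mul_right, row]

theorem copy_snd (P : PMF Ω) (W : Ω → γ) (g : Ω → ℝ≥0∞) :
    ∑' q, copy P W q * g q.2 = ∑' a, P a * g a := by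
  rw [← copy_fst P W g, ← (Equiv.prodComm Ω Ω).tsum_eq]
  refine tsum_congr fun q => ?_
  by_cases c : W q.1 = W q.2
  · simp only [copy_apply, Equiv.prodComm_apply, Prod.fst_swap, Prod.snd_swap, c, if_true]
    ring
  · simp [copy_apply, c, Ne.symm c]

theorem F_eq (P : PMF Ω) (X : Ω → α) (a) : F P X a = ∑' ω, P ω * if a = X ω then 1 else 0 := by
  simp [F]

theorem E_fst (P : PMF Ω) (W : Ω → γ) (X : Ω → α) : E (copy P W) (fun q => X q.1) = E P X := by
  have : ∀ a, F (copy P W) (fun q => X q.1) a = F P X a := fun a => by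
    rw [F_eq, F_eq, copy_fst P W fun ω => if a = X ω then 1 else 0]
  simp only [E, this]
  exact copy_fst P W fun a => L (F P X (X a))

theorem E_snd (P : PMF Ω) (W : Ω → γ) (X : Ω → α) : E (copy P W) (fun q => X q.2) = E P X := by
  have : ∀ a, F (copy P W) (fun q => X q.2) a = F P X a := fun a => by
    rw [F_eq, F_eq, copy_snd P W fun ω => if a = X ω then 1 else 0]
  simp only [E, this]
  exact copy_snd P W fun a => L (F P X (X a))

theorem E_copy (P : PMF Ω) (W : Ω → γ) (X : Ω → α) (Y : Ω → β)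
    (h1 : ∀ ω ω', X ω = X ω' → W ω = W ω') :
    E P X + E P Y ≤ E (copy P W) (fun q => (X q.1, Y q.2)) + E P W := by
  have := tsum_le_supp (copy P W) fun q c => L_prod (F_ne P X (copy_supp c).1) (F_le _ _ _)
    (F_ne P Y (copy_supp c).2.1) (F_le _ _ _) (F_ne _ (fun q => (X q.1, Y q.2)) c) (F_le _ _ _)
    (F_ne P W (copy_supp c).1) (F_le _ _ _) (by
      rw [F, F.eq_1 P X, F.eq_1 P Y, ← ENNReal.tsum_mul_right, ← ENNReal.tsum_mul_right,
        ENNReal.tsum_prod']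
      refine ENNReal.tsum_le_tsum fun a => ?_
      rw [← ENNReal.tsum_mul_left]
      refine ENNReal.tsum_le_tsum fun b => ?_
      by_cases c1 : X q.1 = X a
      · by_cases c2 : Y q.2 = Y b
        · simp only [c1, c2, if_true, copy_apply, h1 _ _ c1, mul_assoc]
          gcongr
          refine (mul_le_of_le_one_right' (ENNReal.inv_mul_le_one _)).trans ?_
          split_ifs <;> simp
        · simp [c2]
      · simp [c1])
  simp only [mul_add, ENNReal.tsum_add] at this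
  rwa [copy_fst P W fun a => L (F P X (X a)), copy_snd P W fun a => L (F P Y (Y a)),
    copy_fst P W fun a => L (F P W (W a))] at this

end Pool.Agent.H.MP_7216ee_lc
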